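import Pool.Agent.Q205.GR.Stone

/-!
Homomorphisms into measure algebras: the block lemma.
-/

set_option autoImplicit false

namespace Pool.Agent.Q205.GR

open Filter Topology Set MeasureTheory

/-- A homomorphism of Boolean algebras from `𝔸` to the measure algebra of `P` (measurable sets
modulo null sets), given by measurable representatives of its values. -/
structure MHom (𝔸 : Type*) [BooleanAlgebra 𝔸] {Ω : Type*} [MeasurableSpace Ω] (P : Measure Ω) where
  /-- a representative of the value at `a` -/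
  toSet : 𝔸 → Set Ω
  measurable : ∀ a, MeasurableSet (toSet a)
  top : toSet ⊤ =ᵐ[P] univ
  inf : ∀ a b, toSet (a ⊓ b) =ᵐ[P] (toSet a ∩ toSet b : Set Ω)
  compl : ∀ a, toSet aᶜ =ᵐ[P] ((toSet a)ᶜ : Set Ω)

variable {𝔸 : Type*} [BooleanAlgebra 𝔸] {Ω : Type*} [MeasurableSpace Ω] {P : Measure Ω}

namespace MHom

theorem ae_top (φ : MHom 𝔸 P) : ∀ᵐ ω ∂P, ω ∈ φ.toSet ⊤ := by
  filter_upwards [φ.top] with ω h
  have h' : (ω ∈ φ.toSet ⊤) = (ω ∈ (univ : Set Ω)) := h
  rw [h']
  trivial

theorem ae_inf (φ : MHom 𝔸 P) (a b : 𝔸) :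
    ∀ᵐ ω ∂P, ω ∈ φ.toSet (a ⊓ b) ↔ ω ∈ φ.toSet a ∧ ω ∈ φ.toSet b := by
  filter_upwards [φ.inf a b] with ω h
  have h' : (ω ∈ φ.toSet (a ⊓ b)) = (ω ∈ (φ.toSet a ∩ φ.toSet b : Set Ω)) := h
  rw [h']
  rfl

theorem ae_compl (φ : MHom 𝔸 P) (a : 𝔸) : ∀ᵐ ω ∂P, ω ∈ φ.toSet aᶜ ↔ ω ∉ φ.toSet a := by
  filter_upwards [φ.compl a] with ω h
  have h' : (ω ∈ φ.toSet aᶜ) = (ω ∈ ((φ.toSet a)ᶜ : Set Ω)) := h
  rw [h']
  rfl

theorem ae_sup (φ : MHom 𝔸 P) (a b : 𝔸) :
    ∀ᵐ ω ∂P, ω ∈ φ.toSet (a ⊔ b) ↔ ω ∈ φ.toSet a ∨ ω ∈ φ.toSet b := by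
  have h : a ⊔ b = (aᶜ ⊓ bᶜ)ᶜ := by rw [compl_inf, compl_compl, compl_compl]
  filter_upwards [φ.ae_compl (aᶜ ⊓ bᶜ), φ.ae_inf aᶜ bᶜ, φ.ae_compl a, φ.ae_compl b] with
    ω h1 h2 h3 h4
  rw [h, h1, h2, h3, h4]
  tauto

theorem ae_bot (φ : MHom 𝔸 P) : ∀ᵐ ω ∂P, ω ∉ φ.toSet ⊥ := by
  filter_upwards [φ.ae_compl ⊤, φ.ae_top] with ω h1 h2
  rw [← compl_top, h1]
  exact fun h => h h2

theorem ae_mono (φ : MHom 𝔸 P) {a b : 𝔸} (h : a ≤ b) :
    ∀ᵐ ω ∂P, ω ∈ φ.toSet a → ω ∈ φ.toSet b := by
  filter_upwards [φ.ae_inf a b] with ω h1 h2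
  rw [inf_eq_left.2 h] at h1
  exact (h1.1 h2).2

theorem ae_finset_sup (φ : MHom 𝔸 P) {ι : Type*} (F : Finset ι) (g : ι → 𝔸) :
    ∀ᵐ ω ∂P, ω ∈ φ.toSet (F.sup g) ↔ ∃ i ∈ F, ω ∈ φ.toSet (g i) := by
  classical
  induction F using Finset.induction_on with
  | empty =>
    filter_upwards [φ.ae_bot] with ω h
    simpa using h
  | insert i F hi ih =>
    filter_upwards [ih, φ.ae_sup (g i) (F.sup g)] with ω h1 h2
    rw [Finset.sup_insert, h2, h1]
    simp

theorem ae_finset_inf (φ : MHom 𝔸 P) {ι : Type*} (F : Finset ι) (g : ι → 𝔸) :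
    ∀ᵐ ω ∂P, ω ∈ φ.toSet (F.inf g) ↔ ∀ i ∈ F, ω ∈ φ.toSet (g i) := by
  classical
  induction F using Finset.induction_on with
  | empty =>
    filter_upwards [φ.ae_top] with ω h
    simpa using h
  | insert i F hi ih =>
    filter_upwards [ih, φ.ae_inf (g i) (F.inf g)] with ω h1 h2
    rw [Finset.inf_insert, h2, h1]
    simp

/-- the values of a homomorphism give a finitely additive measure -/
theorem finAdd [IsFiniteMeasure P] (φ : MHom 𝔸 P) : FinAdd fun a => P.real (φ.toSet a) where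
  nonneg a := measureReal_nonneg
  bot := by
    have h : P (φ.toSet ⊥) = 0 := by
      rw [measure_eq_zero_iff_ae_notMem]
      exact φ.ae_bot
    simp [Measure.real, h]
  add a c := by
    have h1 : P.real (φ.toSet (c ⊓ a)) = P.real (φ.toSet c ∩ φ.toSet a) :=
      measureReal_congr (φ.inf c a)
    have h2 : P.real (φ.toSet (c ⊓ aᶜ)) = P.real (φ.toSet c \ φ.toSet a) := by
      refine measureReal_congr ?_
      rw [Filter.eventuallyEq_set]
      filter_upwards [φ.ae_inf c aᶜ, φ.ae_compl a] with ω h3 h4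
      rw [h3, h4]
      rfl
    simp only [h1, h2]
    exact measureReal_inter_add_sdiff (φ.measurable a)

end MHom

/-! ### Counting -/

theorem count_avoid {X : Type*} [Fintype X] [DecidableEq X] (q : ℕ) (S : Finset X) :
    (Finset.univ.filter fun c : X → Fin (q + 1) => ∀ x ∈ S, c x ≠ 0).card * (q + 1) ^ S.card =
      q ^ S.card * (q + 1) ^ (Fintype.card X) := by
  classical
  have h1 : (Finset.univ.filter fun c : X → Fin (q + 1) => ∀ x ∈ S, c x ≠ 0) =
      Fintype.piFinset fun x => if x ∈ S then (Finset.univ.erase 0 : Finset (Fin (q + 1)))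
        else Finset.univ := by
    ext c
    simp only [Finset.mem_filter, Finset.mem_univ, true_and, Fintype.mem_piFinset]
    refine forall_congr' fun x => ?_
    by_cases hx : x ∈ S
    · simp [hx]
    · simp [hx]
  rw [h1, Fintype.card_piFinset]
  have h2 : ∀ x : X, (if x ∈ S then (Finset.univ.erase 0 : Finset (Fin (q + 1)))
      else Finset.univ).card = if x ∈ S then q else q + 1 := by
    intro x
    split_ifs
    · rw [Finset.card_erase_of_mem (Finset.mem_univ _), Finset.card_univ, Fintype.card_fin]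
      rfl
    · rw [Finset.card_univ, Fintype.card_fin]
  rw [Finset.prod_congr rfl fun x _ => h2 x]
  have h3 : ∀ b : ℕ, ∏ x : X, (if x ∈ S then b else 1) = b ^ S.card := by
    intro b
    rw [Finset.prod_ite_mem, Finset.univ_inter, Finset.prod_const]
  have h4 : ∏ _x : X, (q + 1) = (q + 1) ^ (Fintype.card X) := by
    rw [Finset.prod_const, Finset.card_univ]
  rw [← h3 (q + 1), ← h3 q, ← h4, ← Finset.prod_mul_distrib, ← Finset.prod_mul_distrib]
  refine Finset.prod_congr rfl fun x _ => ?_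
  split_ifs <;> ring

theorem count_hit {X : Type*} [Fintype X] [DecidableEq X] (q : ℕ) (p : X) :
    (Finset.univ.filter fun c : X → Fin (q + 1) => c p = 0).card * (q + 1) =
      (q + 1) ^ (Fintype.card X) := by
  classical
  have h1 := count_avoid q {p}
  have h2 : (Finset.univ.filter fun c : X → Fin (q + 1) => c p = 0).card +
      (Finset.univ.filter fun c : X → Fin (q + 1) => ¬ c p = 0).card =
      (q + 1) ^ (Fintype.card X) := by
    rw [Finset.card_filter_add_card_filter_not]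
    simp
  simp only [Finset.mem_singleton, forall_eq, Finset.card_singleton, pow_one, ne_eq] at h1
  nlinarith [h1, h2]

/-- Averaging: two families of events. -/
theorem exists_small {Γ : Type*} [Fintype Γ] [Nonempty Γ] [IsProbabilityMeasure P]
    (A B : Γ → Set Ω) (hA : ∀ c, MeasurableSet (A c)) (hB : ∀ c, MeasurableSet (B c)) (K : ℝ)
    (h : ∀ ω, ∑ c, ((A c).indicator (fun _ => (1 : ℝ)) ω + (B c).indicator (fun _ => (1 : ℝ)) ω) ≤
      K * Fintype.card Γ) :
    ∃ c, P.real (A c) + P.real (B c) ≤ K := by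
  have hiA : ∀ c, Integrable ((A c).indicator (fun _ => (1 : ℝ))) P := fun c =>
    (integrable_const (1 : ℝ)).indicator (hA c)
  have hiB : ∀ c, Integrable ((B c).indicator (fun _ => (1 : ℝ))) P := fun c =>
    (integrable_const (1 : ℝ)).indicator (hB c)
  have hi : ∀ c, Integrable (fun ω => (A c).indicator (fun _ => (1 : ℝ)) ω +
      (B c).indicator (fun _ => (1 : ℝ)) ω) P := fun c => (hiA c).add (hiB c)
  have h1 : ∑ c, (P.real (A c) + P.real (B c)) =
      ∫ ω, ∑ c, ((A c).indicator (fun _ => (1 : ℝ)) ω + (B c).indicator (fun _ => (1 : ℝ)) ω) ∂P := by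
    rw [integral_finsetSum _ fun c _ => hi c]
    refine Finset.sum_congr rfl fun c _ => ?_
    rw [integral_add (hiA c) (hiB c), integral_indicator_const _ (hA c),
      integral_indicator_const _ (hB c)]
    simp
  have h2 : ∑ c, (P.real (A c) + P.real (B c)) ≤ ∑ _c : Γ, K := by
    rw [h1]
    calc _ ≤ ∫ _ω, K * Fintype.card Γ ∂P := by
          refine integral_mono (integrable_finsetSum _ fun c _ => hi c)
            (integrable_const _) fun ω => h ω
      _ = _ := by
          simp [mul_comm]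
  obtain ⟨c, -, hc⟩ := Finset.exists_le_of_sum_le Finset.univ_nonempty h2
  exact ⟨c, hc⟩

/-- The colouring argument. -/
theorem exists_colour [IsProbabilityMeasure P] {X ι : Type*} [Fintype X] [DecidableEq X]
    [MeasurableSpace X] [DiscreteMeasurableSpace X] [Fintype ι]
    (p : Ω → X) (hp : Measurable p) (u : ι → Ω → X) (hu : ∀ j, Measurable (u j)) (M q : ℕ) :
    ∃ C : Set X, P.real {ω | p ω ∈ C} + P.real {ω | M ≤ (Finset.univ.image fun j => u j ω).card ∧
      ∀ j, u j ω ∉ C} ≤ 1 / (q + 1) + (q / (q + 1)) ^ M := by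
  classical
  have hU : Measurable fun ω => fun j => u j ω := measurable_pi_iff.2 hu
  have hAm : ∀ c : X → Fin (q + 1), MeasurableSet {ω | c (p ω) = 0} := fun c =>
    hp (MeasurableSet.of_discrete (s := {x | c x = 0}))
  have hBm : ∀ c : X → Fin (q + 1), MeasurableSet {ω | M ≤ (Finset.univ.image fun j => u j ω).card ∧
      ∀ j, c (u j ω) ≠ 0} := fun c =>
    hU (MeasurableSet.of_discrete (s := {x : ι → X | M ≤ (Finset.univ.image fun j => x j).card ∧
      ∀ j, c (x j) ≠ 0}))
  obtain ⟨c, hc⟩ := exists_small (P := P) (Γ := X → Fin (q + 1)) (fun c => {ω | c (p ω) = 0})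
    (fun c => {ω | M ≤ (Finset.univ.image fun j => u j ω).card ∧ ∀ j, c (u j ω) ≠ 0}) hAm hBm
    (1 / (q + 1) + (q / (q + 1)) ^ M) (by
      intro ω
      have hq : (0 : ℝ) < q + 1 := by positivity
      rw [Finset.sum_add_distrib, add_mul]
      have hcard : (Fintype.card (X → Fin (q + 1)) : ℝ) = (q + 1 : ℝ) ^ (Fintype.card X) := by
        simp
      refine add_le_add ?_ ?_
      · have h1 : ∑ c : X → Fin (q + 1), ({ω | c (p ω) = 0} : Set Ω).indicator (fun _ => (1 : ℝ)) ω =
            ((Finset.univ.filter fun c : X → Fin (q + 1) => c (p ω) = 0).card : ℝ) := by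
          rw [Finset.card_filter]
          push_cast
          refine Finset.sum_congr rfl fun c _ => ?_
          simp [Set.indicator_apply]
        rw [h1, hcard]
        have h2 := count_hit q (p ω)
        have h3 : ((Finset.univ.filter fun c : X → Fin (q + 1) => c (p ω) = 0).card : ℝ) * (q + 1) =
            (q + 1) ^ (Fintype.card X) := by exact_mod_cast h2
        rw [← h3]
        field_simp
        rfl
      · by_cases hM : M ≤ (Finset.univ.image fun j => u j ω).card
        · have h1 : ∑ c : X → Fin (q + 1), ({ω | M ≤ (Finset.univ.image fun j => u j ω).card ∧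
              ∀ j, c (u j ω) ≠ 0} : Set Ω).indicator (fun _ => (1 : ℝ)) ω =
              ((Finset.univ.filter fun c : X → Fin (q + 1) =>
                ∀ x ∈ Finset.univ.image fun j => u j ω, c x ≠ 0).card : ℝ) := by
            rw [Finset.card_filter]
            push_cast
            refine Finset.sum_congr rfl fun c _ => ?_
            simp [Set.indicator_apply, hM]
          rw [h1, hcard]
          have h2 := count_avoid q (Finset.univ.image fun j => u j ω)
          set s := (Finset.univ.image fun j => u j ω).card with hs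
          have h3 : ((Finset.univ.filter fun c : X → Fin (q + 1) =>
                ∀ x ∈ Finset.univ.image fun j => u j ω, c x ≠ 0).card : ℝ) * (q + 1) ^ s =
              q ^ s * (q + 1) ^ (Fintype.card X) := by exact_mod_cast h2
          have h4 : ((Finset.univ.filter fun c : X → Fin (q + 1) =>
                ∀ x ∈ Finset.univ.image fun j => u j ω, c x ≠ 0).card : ℝ) =
              (q / (q + 1)) ^ s * (q + 1) ^ (Fintype.card X) := by
            rw [div_pow, div_mul_eq_mul_div, eq_div_iff (by positivity)]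
            exact h3
          rw [h4]
          refine mul_le_mul_of_nonneg_right ?_ (by positivity)
          refine pow_le_pow_of_le_one (by positivity) ?_ hM
          rw [div_le_one hq]
          linarith
        · have h1 : ∑ c : X → Fin (q + 1), ({ω | M ≤ (Finset.univ.image fun j => u j ω).card ∧
              ∀ j, c (u j ω) ≠ 0} : Set Ω).indicator (fun _ => (1 : ℝ)) ω = 0 := by
            refine Finset.sum_eq_zero fun c _ => ?_
            simp [hM]
          rw [h1]
          positivity)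
  exact ⟨{x | c x = 0}, hc⟩

/-! ### Atoms and codes -/

open Classical in
/-- the element of the Boolean algebra with a given finite code -/
noncomputable def atom (a : ℕ → 𝔸) {m : ℕ} (s : Fin m → Prop) : 𝔸 :=
  Finset.univ.inf fun i : Fin m => if s i then a i else (a i)ᶜ

open Classical in
/-- the element of the Boolean algebra with codes in a given set -/
noncomputable def codeSet (a : ℕ → 𝔸) {m : ℕ} (C : Set (Fin m → Prop)) : 𝔸 :=
  (Finset.univ.filter fun s : Fin m → Prop => s ∈ C).sup fun s => atom a s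

theorem ae_codeSet (φ : MHom 𝔸 P) (a : ℕ → 𝔸) {m : ℕ} (C : Set (Fin m → Prop)) :
    ∀ᵐ ω ∂P, ω ∈ φ.toSet (codeSet a C) ↔ (fun i : Fin m => ω ∈ φ.toSet (a i)) ∈ C := by
  classical
  have h1 : ∀ᵐ ω ∂P, ∀ s : Fin m → Prop, ω ∈ φ.toSet (atom a s) ↔
      ∀ i ∈ (Finset.univ : Finset (Fin m)), ω ∈ φ.toSet (if s i then a i else (a i)ᶜ) := by
    rw [ae_all_iff]
    exact fun s => φ.ae_finset_inf _ _
  have h2 : ∀ᵐ ω ∂P, ∀ i : Fin m, ω ∈ φ.toSet (a i)ᶜ ↔ ω ∉ φ.toSet (a i) := by
    rw [ae_all_iff]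
    exact fun i => φ.ae_compl _
  filter_upwards [h1, h2, φ.ae_finset_sup (Finset.univ.filter fun s : Fin m → Prop => s ∈ C)
    fun s => atom a s] with ω g1 g2 g3
  have g4 : ∀ s : Fin m → Prop, ω ∈ φ.toSet (atom a s) ↔ s = fun i : Fin m => ω ∈ φ.toSet (a i) := by
    intro s
    rw [g1]
    constructor
    · intro h
      funext i
      have := h i (Finset.mem_univ _)
      by_cases hs : s i
      · rw [if_pos hs] at this
        exact propext ⟨fun _ => this, fun _ => hs⟩
      · rw [if_neg hs, g2] at this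
        exact propext ⟨fun h => absurd h hs, fun h => absurd h this⟩
    · rintro rfl i -
      by_cases hs : ω ∈ φ.toSet (a i)
      · rw [if_pos hs]
        exact hs
      · rw [if_neg hs, g2]
        exact hs
  rw [codeSet, g3]
  constructor
  · rintro ⟨s, hs, h⟩
    rw [g4] at h
    subst h
    simpa using hs
  · intro h
    exact ⟨_, by simpa using h, (g4 _).2 rfl⟩

/-- pointwise convergence almost everywhere -/
def AEConv (ψ : ℕ → MHom 𝔸 P) (φ : MHom 𝔸 P) : Prop :=
  ∀ a, ∀ᵐ ω ∂P, ∀ᶠ j in atTop, (ω ∈ (ψ j).toSet a ↔ ω ∈ φ.toSet a)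

theorem exists_distinct {u : ℕ → ℕ → Prop} {v : ℕ → Prop}
    (h1 : ∀ i, ∀ᶠ j in atTop, (u j i ↔ v i)) (h2 : ∃ᶠ j in atTop, ¬ (u j j ↔ v j)) (M : ℕ) :
    ∃ T : Finset ℕ, T.card = M ∧ (∀ j ∈ T, ¬ (u j j ↔ v j)) ∧
      ∀ j ∈ T, ∀ j' ∈ T, j < j' → (u j' j ↔ v j) := by
  classical
  induction M with
  | zero => exact ⟨∅, rfl, by simp, by simp⟩
  | succ M ih =>
    obtain ⟨T, hT, g1, g2⟩ := ih
    have h3 : ∀ᶠ j in atTop, ∀ i ∈ T, (u j i ↔ v i) := by
      rw [Filter.eventually_all_finset]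
      exact fun i _ => h1 i
    have h4 : ∀ᶠ j in atTop, ∀ i ∈ T, i < j := by
      rw [Filter.eventually_all_finset]
      exact fun i _ => eventually_gt_atTop i
    obtain ⟨j, h5, h6, h7⟩ := (h2.and_eventually (h3.and h4)).exists
    have h8 : j ∉ T := fun h => lt_irrefl _ (h7 j h)
    refine ⟨insert j T, by rw [Finset.card_insert_of_notMem h8, hT], ?_, ?_⟩
    · intro i hi
      rcases Finset.mem_insert.1 hi with rfl | hi
      exacts [h5, g1 i hi]
    · intro i hi i' hi' hii'
      rcases Finset.mem_insert.1 hi with e | hiT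
      · rcases Finset.mem_insert.1 hi' with e' | hiT'
        · rw [e, e'] at hii'
          exact absurd hii' (lt_irrefl _)
        · rw [e] at hii'
          exact absurd (h7 _ hiT') (not_lt.2 hii'.le)
      · rcases Finset.mem_insert.1 hi' with e' | hiT'
        · rw [e']
          exact h6 i hiT
        · exact g2 i hiT i' hiT' hii'

/-- The block lemma. -/
theorem block [IsProbabilityMeasure P] {ψ : ℕ → MHom 𝔸 P} {φ : MHom 𝔸 P} (hc : AEConv ψ φ)
    (a : ℕ → 𝔸) {ε : ℝ} (hε : 0 < ε)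
    (ha : ∀ j, ε ≤ P.real (symmDiff ((ψ j).toSet (a j)) (φ.toSet (a j)))) {δ : ℝ} (hδ : 0 < δ) :
    ∃ (m : ℕ) (C : 𝔸), P.real (φ.toSet C) ≤ δ ∧
      ε / 4 ≤ P.real (⋃ j : Fin m, (ψ j).toSet C) := by
  classical
  -- the parameters
  obtain ⟨q, hq⟩ : ∃ q : ℕ, 1 / ((q : ℝ) + 1) ≤ min δ (ε / 4) / 2 := by
    obtain ⟨q, hq⟩ := exists_nat_one_div_lt (show 0 < min δ (ε / 4) / 2 by positivity)
    exact ⟨q, hq.le⟩
  obtain ⟨M, hM⟩ : ∃ M : ℕ, ((q : ℝ) / (q + 1)) ^ M ≤ min δ (ε / 4) / 2 := by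
    obtain ⟨M, hM⟩ := exists_pow_lt_of_lt_one (show 0 < min δ (ε / 4) / 2 by positivity)
      (show (q : ℝ) / (q + 1) < 1 by
        rw [div_lt_one (by positivity)]
        linarith)
    exact ⟨M, hM.le⟩
  -- the codes
  let u : (m : ℕ) → Fin m → Ω → (Fin m → Prop) := fun m j ω i => ω ∈ (ψ j).toSet (a i)
  let G : ℕ → Set Ω := fun m => {ω | M ≤ (Finset.univ.image fun j => u m j ω).card}
  have hum : ∀ m j, Measurable (u m j) := fun m j => measurable_pi_iff.2 fun i =>
    measurableSet_setOfPred.1 ((ψ j).measurable (a i))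
  have hGm : ∀ m, MeasurableSet (G m) := by
    intro m
    have hU : Measurable fun ω => fun j => u m j ω := measurable_pi_iff.2 (hum m)
    exact hU (MeasurableSet.of_discrete (s := {x : Fin m → (Fin m → Prop) |
      M ≤ (Finset.univ.image fun j => x j).card}))
  have hmono : Monotone G := by
    intro m m' hmm' ω hω
    change M ≤ (Finset.univ.image fun j => u m j ω).card at hω
    change M ≤ (Finset.univ.image fun j => u m' j ω).card
    refine le_trans hω ?_
    have h1 : (Finset.univ.image fun j => u m j ω) =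
        ((Finset.univ.image fun j : Fin m => u m' (Fin.castLE hmm' j) ω).image
          fun s i => s (Fin.castLE hmm' i)) := by
      rw [Finset.image_image]
      rfl
    rw [h1]
    refine Finset.card_image_le.trans (Finset.card_le_card ?_)
    intro s hs
    obtain ⟨j, -, rfl⟩ := Finset.mem_image.1 hs
    exact Finset.mem_image.2 ⟨_, Finset.mem_univ _, rfl⟩
  -- infinitely many bad indices force many codes
  let E : ℕ → Set Ω := fun j => symmDiff ((ψ j).toSet (a j)) (φ.toSet (a j))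
  have hEm : ∀ j, MeasurableSet (E j) := fun j =>
    ((ψ j).measurable _).symmDiff (φ.measurable _)
  let H : ℕ → Set Ω := fun N => ⋃ j ∈ Set.Ici N, E j
  have hHm : ∀ N, MeasurableSet (H N) := fun N =>
    MeasurableSet.biUnion (Set.to_countable _) fun j _ => hEm j
  have hHa : Antitone H := by
    intro N N' hN
    exact Set.biUnion_subset_biUnion_left (Set.Ici_subset_Ici.2 hN)
  have hH : ε ≤ P.real (⋂ N, H N) := by
    have h1 : Tendsto (fun N => P (H N)) atTop (𝓝 (P (⋂ N, H N))) :=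
      tendsto_measure_iInter_atTop (fun N => (hHm N).nullMeasurableSet) hHa
        ⟨0, measure_ne_top _ _⟩
    have h2 : Tendsto (fun N => P.real (H N)) atTop (𝓝 (P.real (⋂ N, H N))) :=
      (ENNReal.tendsto_toReal (measure_ne_top _ _)).comp h1
    refine ge_of_tendsto h2 (Filter.Eventually.of_forall fun N => (ha N).trans ?_)
    exact measureReal_mono (Set.subset_biUnion_of_mem (u := E) (Set.mem_Ici.2 le_rfl))
      (measure_ne_top _ _)
  have hsub : ∀ᵐ ω ∂P, ω ∈ (⋂ N, H N) → ω ∈ ⋃ m, G m := by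
    have h1 : ∀ᵐ ω ∂P, ∀ i, ∀ᶠ j in atTop, (ω ∈ (ψ j).toSet (a i) ↔ ω ∈ φ.toSet (a i)) := by
      rw [ae_all_iff]
      exact fun i => hc (a i)
    filter_upwards [h1] with ω h1 h2
    have h3 : ∃ᶠ j in atTop, ¬ (ω ∈ (ψ j).toSet (a j) ↔ ω ∈ φ.toSet (a j)) := by
      rw [Filter.frequently_atTop]
      intro N
      obtain ⟨j, hj, hj'⟩ := Set.mem_iUnion₂.1 (Set.mem_iInter.1 h2 N)
      refine ⟨j, hj, ?_⟩
      rcases hj' with ⟨g1, g2⟩ | ⟨g1, g2⟩
      · exact fun h => g2 (h.1 g1)
      · exact fun h => g2 (h.2 g1)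
    obtain ⟨T, hT, g1, g2⟩ := exists_distinct (u := fun j i => ω ∈ (ψ j).toSet (a i))
      (v := fun i => ω ∈ φ.toSet (a i)) h1 h3 M
    obtain ⟨m, hm⟩ : ∃ m, ∀ j ∈ T, j < m := by
      obtain ⟨b, hb⟩ := T.exists_le
      exact ⟨b + 1, fun j hj => Nat.lt_succ_of_le (hb j hj)⟩
    refine Set.mem_iUnion.2 ⟨m, ?_⟩
    change M ≤ (Finset.univ.image fun j => u m j ω).card
    rw [← hT]
    refine Finset.card_le_card_of_injOn (fun j => fun i : Fin m => ω ∈ (ψ j).toSet (a i)) ?_ ?_
    · intro j hj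
      exact Finset.mem_image.2 ⟨⟨j, hm j hj⟩, Finset.mem_univ _, rfl⟩
    · have key : ∀ j ∈ T, ∀ j' ∈ T, j < j' → (fun i : Fin m => ω ∈ (ψ j).toSet (a i)) ≠
          (fun i : Fin m => ω ∈ (ψ j').toSet (a i)) := by
        intro j hj j' hj' hjj' he
        have e1 := congrFun he ⟨j, hm j hj⟩
        have e2 : (ω ∈ (ψ j).toSet (a j)) = (ω ∈ (ψ j').toSet (a j)) := e1
        apply g1 j hj
        rw [e2]
        exact g2 j hj j' hj' hjj'
      intro j hj j' hj' he
      by_contra hne
      rcases lt_or_gt_of_ne hne with h | h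
      · exact key j hj j' hj' h he
      · exact key j' hj' j hj h he.symm
  -- a level where many codes appear
  have hG1 : ε ≤ P.real (⋃ m, G m) := by
    refine hH.trans ?_
    refine ENNReal.toReal_mono (measure_ne_top _ _) (measure_mono_ae ?_)
    exact hsub
  obtain ⟨m, hm⟩ : ∃ m, ε / 2 ≤ P.real (G m) := by
    have h1 : Tendsto (fun m => P (G m)) atTop (𝓝 (P (⋃ m, G m))) :=
      tendsto_measure_iUnion_atTop hmono
    have h2 : Tendsto (fun m => P.real (G m)) atTop (𝓝 (P.real (⋃ m, G m))) :=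
      (ENNReal.tendsto_toReal (measure_ne_top _ _)).comp h1
    obtain ⟨m, hm⟩ := ((tendsto_order.1 h2).1 (ε / 2) (by linarith)).exists
    exact ⟨m, hm.le⟩
  -- the colouring
  have hpm : Measurable (fun ω => fun i : Fin m => ω ∈ φ.toSet (a i)) :=
    measurable_pi_iff.2 fun i => measurableSet_setOfPred.1 (φ.measurable (a i))
  obtain ⟨C, hC⟩ := exists_colour (P := P) (fun ω => fun i : Fin m => ω ∈ φ.toSet (a i)) hpm
    (u m) (hum m) M q
  have hmin : 1 / ((q : ℝ) + 1) + (q / (q + 1)) ^ M ≤ min δ (ε / 4) := by linarith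
  have hC' := hC.trans hmin
  refine ⟨m, codeSet a C, ?_, ?_⟩
  · have h1 : P.real (φ.toSet (codeSet a C)) =
        P.real {ω | (fun i : Fin m => ω ∈ φ.toSet (a i)) ∈ C} := by
      refine measureReal_congr ?_
      rw [Filter.eventuallyEq_set]
      filter_upwards [ae_codeSet φ a C] with ω h
      rw [h]
    rw [h1]
    have h2 : 0 ≤ P.real {ω | M ≤ (Finset.univ.image fun j => u m j ω).card ∧
      ∀ j, u m j ω ∉ C} := measureReal_nonneg
    linarith [min_le_left δ (ε / 4)]
  · have h1 : P.real (G m) ≤ P.real {ω | M ≤ (Finset.univ.image fun j => u m j ω).card ∧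
        ∀ j, u m j ω ∉ C} + P.real (⋃ j : Fin m, (ψ j).toSet (codeSet a C)) := by
      refine le_trans ?_ (measureReal_union_le _ _)
      refine ENNReal.toReal_mono (measure_ne_top _ _) (measure_mono_ae ?_)
      have h2 : ∀ᵐ ω ∂P, ∀ j : Fin m, ω ∈ (ψ j).toSet (codeSet a C) ↔ u m j ω ∈ C := by
        rw [ae_all_iff]
        exact fun j => ae_codeSet (ψ j) a C
      filter_upwards [h2] with ω h2 h3
      by_cases h4 : ∀ j, u m j ω ∉ C
      · exact Or.inl ⟨h3, h4⟩
      · push Not at h4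
        obtain ⟨j, hj⟩ := h4
        exact Or.inr (Set.mem_iUnion.2 ⟨j, (h2 j).2 hj⟩)
    have h2 : 0 ≤ P.real {ω | (fun i : Fin m => ω ∈ φ.toSet (a i)) ∈ C} := measureReal_nonneg
    linarith [min_le_right δ (ε / 4)]

end Pool.Agent.Q205.GR
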