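import Pool.Agent.Q205.GR.Block

/-!
Mixtures of homomorphisms and the main argument.
-/

set_option autoImplicit false

namespace Pool.Agent.Q205.GR

open Filter Topology Set MeasureTheory

variable {𝔸 : Type*} [BooleanAlgebra 𝔸] {Ω : Type*} [MeasurableSpace Ω] {P : Measure Ω}

/-- The mixture of a sequence of homomorphisms along a random index. -/
def mix (ψ : ℕ → MHom 𝔸 P) (N : Ω → ℕ) (hN : Measurable N) : MHom 𝔸 P where
  toSet a := {ω | ω ∈ (ψ (N ω)).toSet a}
  measurable a := by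
    have h : {ω | ω ∈ (ψ (N ω)).toSet a} = ⋃ j, (N ⁻¹' {j}) ∩ (ψ j).toSet a := by
      ext ω
      simp
    rw [h]
    exact MeasurableSet.iUnion fun j => (hN (measurableSet_singleton j)).inter
      ((ψ j).measurable a)
  top := by
    have h : ∀ᵐ ω ∂P, ∀ j, ω ∈ (ψ j).toSet ⊤ := ae_all_iff.2 fun j => (ψ j).ae_top
    rw [Filter.eventuallyEq_set]
    filter_upwards [h] with ω h
    exact ⟨fun _ => trivial, fun _ => h _⟩
  inf a b := by
    have h : ∀ᵐ ω ∂P, ∀ j, ω ∈ (ψ j).toSet (a ⊓ b) ↔ ω ∈ (ψ j).toSet a ∧ ω ∈ (ψ j).toSet b :=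
      ae_all_iff.2 fun j => (ψ j).ae_inf a b
    rw [Filter.eventuallyEq_set]
    filter_upwards [h] with ω h
    exact h _
  compl a := by
    have h : ∀ᵐ ω ∂P, ∀ j, ω ∈ (ψ j).toSet aᶜ ↔ ω ∉ (ψ j).toSet a :=
      ae_all_iff.2 fun j => (ψ j).ae_compl a
    rw [Filter.eventuallyEq_set]
    filter_upwards [h] with ω h
    exact h _

/-- The first index in the block at which the homomorphism hits `C`. -/
theorem exists_index (ψ : ℕ → MHom 𝔸 P) (k m : ℕ) (C : 𝔸) :
    ∃ N : Ω → ℕ, Measurable N ∧ (∀ ω, k ≤ N ω) ∧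
      ∀ ω, (∃ j : Fin m, ω ∈ (ψ (k + j)).toSet C) → ω ∈ (ψ (N ω)).toSet C := by
  classical
  have h1 : ∀ ω, ∃ j : ℕ, (ω ∈ (ψ (k + j)).toSet C ∧ j < m) ∨ m ≤ j := fun ω => ⟨m, Or.inr le_rfl⟩
  have hm : Measurable fun ω => Nat.find (h1 ω) := by
    refine measurable_find (p := fun ω j => (ω ∈ (ψ (k + j)).toSet C ∧ j < m) ∨ m ≤ j) h1 ?_
    intro j
    by_cases hj : m ≤ j
    · simp [hj]
    · simp only [hj, or_false]
      by_cases hj' : j < m
      · simp only [hj', and_true]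
        exact (ψ (k + j)).measurable C
      · omega
  have hm' : Measurable fun ω => k + Nat.find (h1 ω) :=
    (measurable_from_nat (f := fun n : ℕ => k + n)).comp hm
  refine ⟨fun ω => k + Nat.find (h1 ω), hm', fun ω => Nat.le_add_right _ _, ?_⟩
  rintro ω ⟨j, hj⟩
  have h2 := Nat.find_spec (h1 ω)
  have h3 : Nat.find (h1 ω) ≤ j := Nat.find_min' (h1 ω) (Or.inl ⟨hj, j.2⟩)
  rcases h2 with h2 | h2
  · exact h2.1
  · exact absurd h2 (not_le.2 (lt_of_le_of_lt h3 j.2))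

theorem mix_conv {ψ : ℕ → MHom 𝔸 P} {φ : MHom 𝔸 P} [IsProbabilityMeasure P] (hc : AEConv ψ φ)
    (N : ℕ → Ω → ℕ) (hN : ∀ k, Measurable (N k)) (hk : ∀ k ω, k ≤ N k ω) (a : 𝔸) :
    Tendsto (fun k => P.real ((mix ψ (N k) (hN k)).toSet a)) atTop (𝓝 (P.real (φ.toSet a))) := by
  have h1 : Tendsto (fun k => P ((mix ψ (N k) (hN k)).toSet a)) atTop (𝓝 (P (φ.toSet a))) := by
    refine tendsto_measure_of_ae_tendsto_indicator_of_isFiniteMeasure atTop (φ.measurable a)
      (fun k => (mix ψ (N k) (hN k)).measurable a) ?_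
    filter_upwards [hc a] with ω h
    obtain ⟨j, hj⟩ := Filter.eventually_atTop.1 h
    filter_upwards [eventually_ge_atTop j] with k hk'
    exact hj _ (hk'.trans (hk k ω))
  exact (ENNReal.tendsto_toReal (measure_ne_top _ _)).comp h1

/-- The positive Grothendieck property of a Boolean algebra: every weak-star convergent
sequence of positive functionals on the continuous functions on the Stone space converges
weakly. -/
def PositiveGrothendieck (𝔸 : Type*) [BooleanAlgebra 𝔸] : Prop :=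
  ∀ (L : ℕ → StrongDual ℝ C(St 𝔸, ℝ)) (L' : StrongDual ℝ C(St 𝔸, ℝ)),
    (∀ n f, 0 ≤ f → 0 ≤ L n f) →
    (∀ f, Tendsto (fun n => L n f) atTop (𝓝 (L' f))) →
    ∀ F : StrongDual ℝ (StrongDual ℝ C(St 𝔸, ℝ)), Tendsto (fun n => F (L n)) atTop (𝓝 (F L'))

theorem main_real [IsProbabilityMeasure P] (hG : PositiveGrothendieck 𝔸) {ψ : ℕ → MHom 𝔸 P}
    {φ : MHom 𝔸 P} (hc : AEConv ψ φ) (a : ℕ → 𝔸) {ε : ℝ} (hε : 0 < ε)
    (ha : ∀ j, ε ≤ P.real (symmDiff ((ψ j).toSet (a j)) (φ.toSet (a j)))) : False := by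
  classical
  -- the blocks
  have h1 : ∀ k : ℕ, ∃ (m : ℕ) (C : 𝔸), P.real (φ.toSet C) ≤ ε / 16 * (1 / 2) ^ k ∧
      ε / 4 ≤ P.real (⋃ j : Fin m, (ψ (k + j)).toSet C) := by
    intro k
    have hck : AEConv (fun j => ψ (k + j)) φ := by
      intro b
      filter_upwards [hc b] with ω h
      exact (tendsto_add_atTop_nat k).eventually h |>.mono fun j hj => by rwa [add_comm k j]
    exact block hck (fun j => a (k + j)) hε (fun j => ha (k + j)) (by positivity)
  choose m C hC1 hC2 using h1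
  choose N hN hk hhit using fun k => exists_index ψ k (m k) (C k)
  -- the functionals
  let χ : ℕ → MHom 𝔸 P := fun k => mix ψ (N k) (hN k)
  have hext : ∀ χ : MHom 𝔸 P, ∃ L : StrongDual ℝ C(St 𝔸, ℝ), (∀ f, |L f| ≤ ‖f‖) ∧
      (∀ f, 0 ≤ f → 0 ≤ L f) ∧ ∀ a, L (ind a) = P.real (χ.toSet a) := fun χ =>
    exists_extension χ.finAdd measureReal_le_one
  choose L hL using fun k => hext (χ k)
  obtain ⟨L', hL'⟩ := hext φ
  have hw : ∀ f, Tendsto (fun k => L k f) atTop (𝓝 (L' f)) := by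
    refine tendsto_of_ind (fun k => (hL k).1) hL'.1 fun b => ?_
    simp only [(hL _).2.2, hL'.2.2]
    exact mix_conv hc N hN hk b
  -- the element of the bidual
  let D : ℕ → 𝔸 := fun n => (Finset.range (n + 1)).sup C
  let ev : ℕ → StrongDual ℝ (StrongDual ℝ C(St 𝔸, ℝ)) := fun n =>
    NormedSpace.inclusionInDoubleDual ℝ C(St 𝔸, ℝ) (ind (D n))
  have hev : ∀ n (x : StrongDual ℝ C(St 𝔸, ℝ)), ev n x = x (ind (D n)) := fun n x => rfl
  have hevb : ∀ n (x : StrongDual ℝ C(St 𝔸, ℝ)), |ev n x| ≤ ‖x‖ := fun n x => by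
    rw [hev, ← Real.norm_eq_abs]
    refine (x.le_opNorm _).trans ?_
    exact mul_le_of_le_one_right (norm_nonneg _) (norm_ind_le _)
  obtain ⟨F, -, hF⟩ := exists_limit (E := StrongDual ℝ C(St 𝔸, ℝ)) ev hevb
    (Ultrafilter.of atTop)
  have hU : ((Ultrafilter.of atTop : Ultrafilter ℕ) : Filter ℕ) ≤ atTop := Ultrafilter.of_le _
  have hF1 : ∀ k, ε / 4 ≤ F (L k) := by
    intro k
    refine ge_of_tendsto (hF (L k)) ?_
    refine hU ?_
    filter_upwards [eventually_ge_atTop k] with n hn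
    rw [hev, (hL k).2.2]
    refine (hC2 k).trans (ENNReal.toReal_mono (measure_ne_top _ _) (measure_mono_ae ?_))
    have hle : C k ≤ D n := Finset.le_sup (f := C) (Finset.mem_range.2 (Nat.lt_succ_of_le hn))
    filter_upwards [(χ k).ae_mono hle] with ω h1 h2
    exact h1 (hhit k ω (Set.mem_iUnion.1 h2))
  have hF2 : F L' ≤ ε / 8 := by
    refine le_of_tendsto (hF L') (Filter.Eventually.of_forall fun n => ?_)
    rw [hev, hL'.2.2]
    have h3 : P.real (φ.toSet (D n)) ≤ ∑ k ∈ Finset.range (n + 1), P.real (φ.toSet (C k)) := by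
      refine le_trans ?_ (measureReal_biUnion_finset_le _ _)
      refine ENNReal.toReal_mono (measure_ne_top _ _) (measure_mono_ae ?_)
      filter_upwards [φ.ae_finset_sup (Finset.range (n + 1)) C] with ω h1 h2
      obtain ⟨i, hi, hi'⟩ := h1.1 h2
      exact Set.mem_iUnion₂.2 ⟨i, hi, hi'⟩
    refine h3.trans ((Finset.sum_le_sum fun k _ => hC1 k).trans ?_)
    rw [← Finset.mul_sum]
    have h4 : ∑ k ∈ Finset.range (n + 1), ((1 : ℝ) / 2) ^ k ≤ 2 := sum_geometric_two_le _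
    nlinarith [h4, hε]
  have h5 : ε / 4 ≤ F L' := ge_of_tendsto (hG L L' (fun n => (hL n).2.1) hw F)
    (Filter.Eventually.of_forall hF1)
  linarith

end Pool.Agent.Q205.GR
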