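import Mathlib

/-!
Stone spaces of Boolean algebras, extension of finitely additive measures to positive functionals
on the continuous functions, and weak-star convergence on the Stone space.
-/

set_option autoImplicit false

namespace Pool.Agent.Q205.GR

open Filter Topology Set

/-- The Stone space of a Boolean algebra: the set of its ultrafilters, given by their
characteristic functions, with the topology of pointwise convergence. -/
def St (𝔸 : Type*) [BooleanAlgebra 𝔸] : Type _ :=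
  {x : 𝔸 → Bool // x ⊤ = true ∧ (∀ a b, x (a ⊓ b) = (x a && x b)) ∧ ∀ a, x aᶜ = !x a}

variable {𝔸 : Type*} [BooleanAlgebra 𝔸]

instance : TopologicalSpace (St 𝔸) :=
  inferInstanceAs (TopologicalSpace {x : 𝔸 → Bool // x ⊤ = true ∧
    (∀ a b, x (a ⊓ b) = (x a && x b)) ∧ ∀ a, x aᶜ = !x a})

instance : CompactSpace (St 𝔸) := by
  have h : IsClosed {x : 𝔸 → Bool | x ⊤ = true ∧ (∀ a b, x (a ⊓ b) = (x a && x b)) ∧
      ∀ a, x aᶜ = !x a} := by
    have h1 : ∀ a : 𝔸, Continuous fun x : 𝔸 → Bool => x a := fun a => continuous_apply a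
    refine IsClosed.inter (isClosed_eq (h1 _) continuous_const) (IsClosed.inter ?_ ?_)
    · have : {x : 𝔸 → Bool | ∀ a b, x (a ⊓ b) = (x a && x b)} =
          ⋂ a, ⋂ b, {x : 𝔸 → Bool | x (a ⊓ b) = (x a && x b)} := by
        ext x
        simp
      change IsClosed {x : 𝔸 → Bool | ∀ a b, x (a ⊓ b) = (x a && x b)}
      rw [this]
      refine isClosed_iInter fun a => isClosed_iInter fun b => isClosed_eq (h1 _) ?_
      exact (continuous_of_discreteTopology (f := fun p : Bool × Bool => (p.1 && p.2))).comp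
        ((h1 a).prodMk (h1 b))
    · have : {x : 𝔸 → Bool | ∀ a, x aᶜ = !x a} = ⋂ a, {x : 𝔸 → Bool | x aᶜ = !x a} := by
        ext x
        simp
      change IsClosed {x : 𝔸 → Bool | ∀ a, x aᶜ = !x a}
      rw [this]
      refine isClosed_iInter fun a => isClosed_eq (h1 _) ?_
      exact (continuous_of_discreteTopology (f := fun p : Bool => !p)).comp (h1 a)
  exact isCompact_iff_compactSpace.1 h.isCompact

/-- every nonzero element belongs to an ultrafilter -/
theorem exists_point {a : 𝔸} (ha : a ≠ ⊥) : ∃ x : St 𝔸, x.1 a = true := by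
  classical
  obtain ⟨J, hJ, -, hd⟩ := DistribLattice.prime_ideal_of_disjoint_filter_ideal
    (F := Order.PFilter.principal a) (I := (⊥ : Order.Ideal 𝔸)) (by
      rw [Set.disjoint_left]
      intro b hb hb'
      have h1 : a ≤ b := hb
      have h2 : b ≤ ⊥ := hb'
      exact ha (le_bot_iff.1 (h1.trans h2)))
  have haJ : a ∉ J := fun h => Set.disjoint_left.1 hd (show a ∈ (Order.PFilter.principal a : Set 𝔸)
    from le_rfl) h
  have htop : (⊤ : 𝔸) ∉ J := fun h => haJ (J.lower le_top h)
  refine ⟨⟨fun b => decide (b ∉ J), ?_, ?_, ?_⟩, ?_⟩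
  · simp [htop]
  · intro b c
    have h1 : b ⊓ c ∉ J ↔ (b ∉ J ∧ c ∉ J) := by
      constructor
      · exact fun h => ⟨fun h' => h (J.lower inf_le_left h'), fun h' => h (J.lower inf_le_right h')⟩
      · rintro ⟨h2, h3⟩ h4
        rcases hJ.mem_or_mem h4 with h5 | h5
        exacts [h2 h5, h3 h5]
    rw [← Bool.decide_and]
    exact decide_eq_decide.2 h1
  · intro b
    have h1 : bᶜ ∉ J ↔ ¬ (b ∉ J) := by
      constructor
      · intro h h'
        exact h (hJ.compl_mem_of_notMem h')
      · intro h h'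
        push Not at h
        refine htop ?_
        have := J.sup_mem h h'
        rwa [sup_compl_eq_top] at this
    rw [← decide_not]
    exact decide_eq_decide.2 h1
  · simpa using haJ

/-- the indicator function of the clopen set given by `a` -/
noncomputable def ind (a : 𝔸) : C(St 𝔸, ℝ) :=
  ⟨fun x => if x.1 a = true then 1 else 0,
    (continuous_of_discreteTopology (f := fun b : Bool => if b = true then (1 : ℝ) else 0)).comp
      ((continuous_apply a).comp continuous_subtype_val)⟩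

theorem ind_apply (a : 𝔸) (x : St 𝔸) : ind a x = if x.1 a = true then 1 else 0 := rfl

theorem ind_nonneg (a : 𝔸) : 0 ≤ ind a := fun x => by
  show (0 : ℝ) ≤ if x.1 a = true then 1 else 0
  split_ifs <;> norm_num

theorem norm_ind_le (a : 𝔸) : ‖ind a‖ ≤ 1 := by
  rw [ContinuousMap.norm_le _ zero_le_one]
  intro x
  rw [ind_apply]
  split_ifs <;> norm_num

theorem ind_top : ind (⊤ : 𝔸) = 1 := by
  ext x
  rw [ind_apply, if_pos x.2.1]
  rfl

theorem ind_inf (a b : 𝔸) : ind (a ⊓ b) = ind a * ind b := by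
  ext x
  rw [ContinuousMap.mul_apply, ind_apply, ind_apply, ind_apply, x.2.2.1]
  cases x.1 a <;> cases x.1 b <;> simp

/-- A limit of functionals along an ultrafilter. -/
theorem exists_limit {ι E : Type*} [NormedAddCommGroup E] [NormedSpace ℝ E]
    (L : ι → StrongDual ℝ E) (hL : ∀ i x, |L i x| ≤ ‖x‖) (U : Ultrafilter ι) :
    ∃ L' : StrongDual ℝ E, (∀ x, |L' x| ≤ ‖x‖) ∧ ∀ x, Tendsto (fun i => L i x) U (𝓝 (L' x)) := by
  have h1 : ∀ x, ∃ y ∈ Set.Icc (-‖x‖) ‖x‖, Tendsto (fun i => L i x) U (𝓝 y) := by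
    intro x
    have h2 : Ultrafilter.map (fun i => L i x) U ≤ 𝓟 (Set.Icc (-‖x‖) ‖x‖) := by
      rw [le_principal_iff]
      refine Filter.mem_map.2 (Filter.univ_mem' fun i => ?_)
      exact abs_le.1 (hL i x)
    obtain ⟨y, hy, hy'⟩ := isCompact_Icc.ultrafilter_le_nhds _ h2
    exact ⟨y, hy, hy'⟩
  choose g hg hg' using h1
  let l : E →ₗ[ℝ] ℝ :=
    { toFun := g
      map_add' := fun x y => tendsto_nhds_unique (hg' (x + y)) (by
        simpa using (hg' x).add (hg' y))
      map_smul' := fun c x => tendsto_nhds_unique (hg' (c • x)) (by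
        simpa using (hg' x).const_mul c) }
  have hl : ∀ x, |l x| ≤ ‖x‖ := fun x => abs_le.2 (hg x)
  refine ⟨l.mkContinuous 1 fun x => ?_, fun x => hl x, fun x => hg' x⟩
  rw [one_mul]
  exact hl x

/-- A finitely additive measure. -/
structure FinAdd (ν : 𝔸 → ℝ) : Prop where
  nonneg : ∀ a, 0 ≤ ν a
  bot : ν ⊥ = 0
  add : ∀ a c, ν (c ⊓ a) + ν (c ⊓ aᶜ) = ν c

/-- A finitely additive measure is given on finitely many elements by point masses. -/
theorem exists_local {ν : 𝔸 → ℝ} (hν : FinAdd ν) (S : Finset 𝔸) : ∀ c : 𝔸,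
    ∃ L : StrongDual ℝ C(St 𝔸, ℝ), (∀ f, |L f| ≤ ν c * ‖f‖) ∧ (∀ f, 0 ≤ f → 0 ≤ L f) ∧
      (∀ f : C(St 𝔸, ℝ), (∀ x : St 𝔸, x.1 c = true → f x = 0) → L f = 0) ∧ L 1 = ν c ∧
      ∀ a ∈ S, L (ind a) = ν (c ⊓ a) := by
  classical
  induction S using Finset.induction_on with
  | empty =>
    intro c
    by_cases hc : c = ⊥
    · refine ⟨0, fun f => ?_, fun f _ => le_rfl, fun f _ => rfl, ?_, by simp⟩
      · simp only [zero_apply, abs_zero]
        exact mul_nonneg (hν.nonneg c) (norm_nonneg f)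
      · rw [hc, hν.bot]
        rfl
    · obtain ⟨x, hx⟩ := exists_point hc
      refine ⟨ν c • ContinuousMap.evalCLM ℝ x, fun f => ?_, fun f hf => ?_, fun f hf => ?_, ?_,
        by simp⟩
      · simp only [smul_apply, ContinuousMap.evalCLM_apply, smul_eq_mul,
          abs_mul, abs_of_nonneg (hν.nonneg c)]
        exact mul_le_mul_of_nonneg_left (f.norm_coe_le_norm x) (hν.nonneg c)
      · simp only [smul_apply, ContinuousMap.evalCLM_apply, smul_eq_mul]
        exact mul_nonneg (hν.nonneg c) (hf x)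
      · simp only [smul_apply, ContinuousMap.evalCLM_apply, smul_eq_mul]
        rw [hf x hx, mul_zero]
      · simp
  | insert a S ha ih =>
    intro c
    obtain ⟨L1, h1, h2, h3, h4, h5⟩ := ih (c ⊓ a)
    obtain ⟨L2, g1, g2, g3, g4, g5⟩ := ih (c ⊓ aᶜ)
    refine ⟨L1 + L2, fun f => ?_, fun f hf => ?_, fun f hf => ?_, ?_, ?_⟩
    · rw [add_apply, ← hν.add a c, add_mul]
      exact (abs_add_le _ _).trans (add_le_add (h1 f) (g1 f))
    · exact add_nonneg (h2 f hf) (g2 f hf)
    · rw [add_apply, h3, g3, add_zero]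
      · intro x hx
        refine hf x ?_
        rw [x.2.2.1, Bool.and_eq_true] at hx
        exact hx.1
      · intro x hx
        refine hf x ?_
        rw [x.2.2.1, Bool.and_eq_true] at hx
        exact hx.1
    · rw [add_apply, h4, g4, hν.add]
    · intro b hb
      rw [Finset.mem_insert] at hb
      rcases hb with rfl | hb
      · have e1 : L1 (ind b) = ν (c ⊓ b) := by
          have : L1 (1 - ind b) = 0 := by
            refine h3 _ fun x hx => ?_
            rw [x.2.2.1, Bool.and_eq_true] at hx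
            rw [ContinuousMap.sub_apply, ind_apply, if_pos hx.2]
            simp
          rw [map_sub, h4, sub_eq_zero] at this
          exact this.symm
        have e2 : L2 (ind b) = 0 := by
          refine g3 _ fun x hx => ?_
          rw [x.2.2.1, Bool.and_eq_true, x.2.2.2] at hx
          rw [ind_apply, if_neg]
          intro h
          rw [h] at hx
          simp at hx
        rw [add_apply, e1, e2, add_zero]
      · rw [add_apply, h5 b hb, g5 b hb]
        have e1 : c ⊓ a ⊓ b = (c ⊓ b) ⊓ a := by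
          rw [inf_assoc, inf_assoc, inf_comm a b]
        have e2 : c ⊓ aᶜ ⊓ b = (c ⊓ b) ⊓ aᶜ := by
          rw [inf_assoc, inf_assoc, inf_comm aᶜ b]
        rw [e1, e2, hν.add]

/-- A finitely additive measure extends to a positive functional on the continuous functions. -/
theorem exists_extension {ν : 𝔸 → ℝ} (hν : FinAdd ν) (h1 : ν ⊤ ≤ 1) :
    ∃ L : StrongDual ℝ C(St 𝔸, ℝ), (∀ f, |L f| ≤ ‖f‖) ∧ (∀ f, 0 ≤ f → 0 ≤ L f) ∧
      ∀ a, L (ind a) = ν a := by
  choose L hL using fun S => exists_local hν S ⊤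
  have hb : ∀ S f, |L S f| ≤ ‖f‖ := fun S f => ((hL S).1 f).trans
    (mul_le_of_le_one_left (norm_nonneg f) h1)
  let U : Ultrafilter (Finset 𝔸) := Ultrafilter.of atTop
  have hU : (U : Filter (Finset 𝔸)) ≤ atTop := Ultrafilter.of_le _
  obtain ⟨L', h2, h3⟩ := exists_limit L hb U
  refine ⟨L', h2, fun f hf => ?_, fun a => ?_⟩
  · exact ge_of_tendsto (h3 f) (Filter.Eventually.of_forall fun S => (hL S).2.1 f hf)
  · refine tendsto_nhds_unique (h3 (ind a)) ?_
    refine tendsto_const_nhds.congr' ?_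
    refine hU ?_
    filter_upwards [eventually_ge_atTop ({a} : Finset 𝔸)] with S hS
    rw [(hL S).2.2.2.2 a (hS (Finset.mem_singleton_self a)), top_inf_eq]

/-- The linear combinations of indicator functions of clopen sets are dense. -/
theorem dense_span : (Submodule.span ℝ (Set.range (ind : 𝔸 → C(St 𝔸, ℝ)))).topologicalClosure = ⊤ := by
  have h1 : (Submonoid.closure (Set.range (ind : 𝔸 → C(St 𝔸, ℝ))) : Set C(St 𝔸, ℝ)) =
      Set.range (ind : 𝔸 → C(St 𝔸, ℝ)) := by
    refine Subset.antisymm ?_ Submonoid.subset_closure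
    intro f hf
    induction hf using Submonoid.closure_induction with
    | mem f hf => exact hf
    | one => exact ⟨⊤, ind_top⟩
    | mul f g _ _ hf hg =>
      obtain ⟨a, rfl⟩ := hf
      obtain ⟨b, rfl⟩ := hg
      exact ⟨a ⊓ b, ind_inf a b⟩
  have h2 : Subalgebra.toSubmodule (Algebra.adjoin ℝ (Set.range (ind : 𝔸 → C(St 𝔸, ℝ)))) =
      Submodule.span ℝ (Set.range (ind : 𝔸 → C(St 𝔸, ℝ))) := by
    rw [Algebra.adjoin_eq_span, h1]
  have h3 := ContinuousMap.subalgebra_topologicalClosure_eq_top_of_separatesPoints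
    (Algebra.adjoin ℝ (Set.range (ind : 𝔸 → C(St 𝔸, ℝ)))) (by
      intro x y hxy
      have : ∃ a, x.1 a ≠ y.1 a := by
        by_contra hc
        push Not at hc
        exact hxy (Subtype.ext (funext hc))
      obtain ⟨a, ha⟩ := this
      refine ⟨ind a, ⟨ind a, Algebra.subset_adjoin ⟨a, rfl⟩, rfl⟩, ?_⟩
      rw [ind_apply, ind_apply]
      revert ha
      cases x.1 a <;> cases y.1 a <;> simp)
  rw [← h2]
  rw [eq_top_iff]
  intro f _
  have h4 : f ∈ (Algebra.adjoin ℝ (Set.range (ind : 𝔸 → C(St 𝔸, ℝ)))).topologicalClosure := by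
    rw [h3]
    trivial
  exact h4

/-- Weak-star convergence can be tested on the indicator functions. -/
theorem tendsto_of_ind {L : ℕ → StrongDual ℝ C(St 𝔸, ℝ)} {L' : StrongDual ℝ C(St 𝔸, ℝ)}
    (hL : ∀ n f, |L n f| ≤ ‖f‖) (hL' : ∀ f, |L' f| ≤ ‖f‖)
    (h : ∀ a, Tendsto (fun n => L n (ind a)) atTop (𝓝 (L' (ind a)))) (f : C(St 𝔸, ℝ)) :
    Tendsto (fun n => L n f) atTop (𝓝 (L' f)) := by
  have h1 : ∀ g ∈ Submodule.span ℝ (Set.range (ind : 𝔸 → C(St 𝔸, ℝ))),
      Tendsto (fun n => L n g) atTop (𝓝 (L' g)) := by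
    intro g hg
    induction hg using Submodule.span_induction with
    | mem g hg =>
      obtain ⟨a, rfl⟩ := hg
      exact h a
    | zero => simp
    | add g g' _ _ hg hg' => simpa using hg.add hg'
    | smul c g _ hg => simpa using hg.const_mul c
  have h2 : f ∈ closure (Submodule.span ℝ (Set.range (ind : 𝔸 → C(St 𝔸, ℝ))) : Set C(St 𝔸, ℝ)) := by
    have h3 : f ∈ (Submodule.span ℝ (Set.range (ind : 𝔸 → C(St 𝔸, ℝ)))).topologicalClosure := by
      rw [dense_span]
      trivial
    exact h3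
  rw [Metric.tendsto_atTop]
  intro ε hε
  obtain ⟨g, hg, hfg⟩ := Metric.mem_closure_iff.1 h2 (ε / 3) (by positivity)
  obtain ⟨N, hN⟩ := (Metric.tendsto_atTop.1 (h1 g hg)) (ε / 3) (by positivity)
  refine ⟨N, fun n hn => ?_⟩
  have e1 := hN n hn
  have e2 := hL n (f - g)
  have e3 := hL' (f - g)
  rw [dist_eq_norm] at hfg
  rw [Real.dist_eq] at e1 ⊢
  rw [map_sub] at e2 e3
  rw [abs_le] at e2 e3
  rw [abs_lt] at e1 ⊢
  constructor <;> linarith [e1.1, e1.2, e2.1, e2.2, e3.1, e3.2]

end Pool.Agent.Q205.GR
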